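import Mathlib

/-!
# Fixed points of weakly contractive set-valued maps with closed bounded values

Affirmative answer to the question of Amini-Harandi (2010): a weakly contractive map `T` of a
complete metric space into its nonempty closed bounded subsets has a fixed point.

Idea: if `γ` is nondecreasing and subadditive, then `γ R ≤ ⌈R / t⌉ γ t`, so that
`γ t ≥ γ R * t / (2 R)` for `0 < t ≤ R`.  Hence for every `R > 0` there is `c > 0` with
`θ t ≥ c t` on `[0, R]`, and `T` contracts distances at most `R` by the factor `1 - c`.  Starting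
with `x₁ ∈ T x₀` and `R = d(x₀, x₁)`, the iteration of Nadler converges to a fixed point.
-/

open scoped NNReal
open Filter Topology

namespace Pool.Agent.Results.MP_e93574_an.FixedPoint

/-- The class `Γ`: continuous, nondecreasing, subadditive maps `γ : [0, ∞) → [0, ∞)` which vanish
exactly at `0`. -/
def InGamma (γ : ℝ≥0 → ℝ≥0) : Prop :=
  Continuous γ ∧ Monotone γ ∧ (∀ s t, γ (s + t) ≤ γ s + γ t) ∧ γ ⁻¹' {0} = {0}

/-- The class `𝒜`: maps `θ : [0, ∞) → [0, ∞)` for which there are `ε₀ > 0` and `γ ∈ Γ` such that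
`θ t ≤ ε₀` implies `γ t ≤ θ t`, for all `t`. -/
def InA (θ : ℝ≥0 → ℝ≥0) : Prop :=
  ∃ ε₀ : ℝ≥0, 0 < ε₀ ∧ ∃ γ : ℝ≥0 → ℝ≥0, InGamma γ ∧ ∀ t, θ t ≤ ε₀ → γ t ≤ θ t

/-- `γ (n t) ≤ n γ t`. -/
lemma nsmul_le {γ : ℝ≥0 → ℝ≥0} (h : InGamma γ) (n : ℕ) (t : ℝ≥0) :
    γ ((n : ℝ≥0) * t) ≤ (n : ℝ≥0) * γ t := by
  induction n with
  | zero =>
      have h0 : (0 : ℝ≥0) ∈ γ ⁻¹' {0} := by rw [h.2.2.2]; rfl
      have : γ 0 = 0 := h0
      simp [this]
  | succ n ih =>
      have : ((n + 1 : ℕ) : ℝ≥0) * t = (n : ℝ≥0) * t + t := by push_cast; ring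
      rw [this]
      calc γ ((n : ℝ≥0) * t + t) ≤ γ ((n : ℝ≥0) * t) + γ t := h.2.2.1 _ _
        _ ≤ (n : ℝ≥0) * γ t + γ t := by gcongr
        _ = ((n + 1 : ℕ) : ℝ≥0) * γ t := by push_cast; ring

/-- A lower bound `θ t ≥ c t` on `[0, R]`. -/
lemma exists_linear {θ : ℝ≥0 → ℝ≥0} (h : InA θ) (R : ℝ) (hR : 0 < R) :
    ∃ c : ℝ, 0 < c ∧ c ≤ 1 ∧ ∀ t : ℝ≥0, (t : ℝ) ≤ R → c * t ≤ θ t := by
  obtain ⟨ε₀, hε, γ, hγ, hθ⟩ := h
  set r : ℝ≥0 := ⟨R, hR.le⟩ with hr
  have hrR : (r : ℝ) = R := rfl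
  have hγpos : 0 < γ r := by
    have : γ r ≠ 0 := by
      intro h0
      have : r ∈ γ ⁻¹' {0} := h0
      rw [hγ.2.2.2] at this
      have h1 : r = 0 := this
      have : (r : ℝ) = 0 := by rw [h1]; rfl
      linarith
    exact pos_iff_ne_zero.mpr this
  have hγpos' : (0 : ℝ) < γ r := by exact_mod_cast hγpos
  have hε' : (0 : ℝ) < ε₀ := by exact_mod_cast hε
  refine ⟨min 1 (min ((γ r : ℝ) / (2 * R)) ((ε₀ : ℝ) / R)), by positivity, min_le_left _ _, ?_⟩
  intro t ht
  set c := min 1 (min ((γ r : ℝ) / (2 * R)) ((ε₀ : ℝ) / R)) with hc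
  have hc0 : 0 < c := by positivity
  have hc1 : c ≤ (γ r : ℝ) / (2 * R) := (min_le_right _ _).trans (min_le_left _ _)
  have hc2 : c ≤ (ε₀ : ℝ) / R := (min_le_right _ _).trans (min_le_right _ _)
  have ht0 : (0 : ℝ) ≤ t := t.2
  rcases ht0.eq_or_lt with h0 | h0
  · rw [← h0]; simp
  by_cases hcase : θ t ≤ ε₀
  · have h1 : (γ t : ℝ) ≤ θ t := by exact_mod_cast hθ t hcase
    refine le_trans ?_ h1
    -- `n = ⌈R / t⌉`
    set n : ℕ := ⌈R / t⌉₊ with hn
    have hn1 : R / t ≤ n := Nat.le_ceil _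
    have hn2 : (n : ℝ) < R / t + 1 := Nat.ceil_lt_add_one (by positivity)
    have hRn : R ≤ n * t := by
      rw [div_le_iff₀ h0] at hn1; exact hn1
    have hle : r ≤ (n : ℝ≥0) * t := by
      rw [← NNReal.coe_le_coe]; push_cast; exact hRn
    have h2 : γ r ≤ (n : ℝ≥0) * γ t := (hγ.2.1 hle).trans (nsmul_le hγ n t)
    have h3 : (γ r : ℝ) ≤ n * γ t := by exact_mod_cast h2
    have h4 : (n : ℝ) * t ≤ 2 * R := by
      have : (n : ℝ) * t ≤ (R / t + 1) * t := by gcongr
      have h5 : (R / t + 1) * (t : ℝ) = R + t := by field_simp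
      linarith
    have hg0 : (0 : ℝ) ≤ γ t := (γ t).2
    calc c * t ≤ (γ r : ℝ) / (2 * R) * t := by gcongr
      _ = (γ r : ℝ) * t / (2 * R) := by ring
      _ ≤ (n * γ t) * t / (2 * R) := by gcongr
      _ = (γ t : ℝ) * ((n * t) / (2 * R)) := by ring
      _ ≤ (γ t : ℝ) * 1 := by
          gcongr
          rw [div_le_one (by positivity)]; exact h4
      _ = γ t := mul_one _
  · push Not at hcase
    have h1 : (ε₀ : ℝ) ≤ θ t := by exact_mod_cast hcase.le
    refine le_trans ?_ h1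
    calc c * t ≤ (ε₀ : ℝ) / R * R := by gcongr
      _ = ε₀ := by field_simp

/-- **Affirmative answer to Q1.** Let `X` be a complete metric space, `θ ∈ 𝒜`, and let `T` assign
to each point a nonempty closed bounded set with
`H (T x) (T y) ≤ d (x, y) - θ (d (x, y))` for all `x, y`. Then `T` has a fixed point. -/
theorem result : ∀ (X : Type*) [MetricSpace X] [CompleteSpace X] [Nonempty X]
    (θ : ℝ≥0 → ℝ≥0), InA θ → ∀ T : X → Set X,
    (∀ x, (T x).Nonempty ∧ IsClosed (T x) ∧ Bornology.IsBounded (T x)) →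
    (∀ x y, Metric.hausdorffDist (T x) (T y) ≤ dist x y - θ (nndist x y)) →
    ∃ x, x ∈ T x := by
  intro X _ _ _ θ hθ T hT hcon
  classical
  obtain ⟨x₀⟩ := ‹Nonempty X›
  obtain ⟨x₁, hx₁⟩ := (hT x₀).1
  rcases eq_or_ne x₀ x₁ with heq | hne
  · exact ⟨x₀, by rw [heq] at hx₁ ⊢; exact heq ▸ hx₁⟩
  set R := dist x₀ x₁ with hR
  have hRpos : 0 < R := dist_pos.mpr hne
  obtain ⟨c, hc0, hc1, hc⟩ := exists_linear hθ R hRpos
  have hloc : ∀ x y, dist x y ≤ R → Metric.hausdorffDist (T x) (T y) ≤ (1 - c) * dist x y := by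
    intro x y hxy
    have h1 := hcon x y
    have h2 := hc (nndist x y) (by rw [coe_nndist]; exact hxy)
    rw [coe_nndist] at h2
    linarith
  have hedist : ∀ x y, Metric.hausdorffEDist (T x) (T y) ≠ ⊤ := fun x y =>
    Metric.hausdorffEDist_ne_top_of_nonempty_of_bounded (hT x).1 (hT y).1 (hT x).2.2 (hT y).2.2
  -- the step of the iteration
  have hstep : ∀ x y, y ∈ T x → dist x y ≤ R →
      ∃ z, z ∈ T y ∧ dist y z ≤ (1 - c / 2) * dist x y := by
    intro x y hy hxy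
    rcases eq_or_ne x y with h | h
    · exact ⟨y, by rw [← h] at hy ⊢; exact hy, by rw [h]; simp⟩
    · have hd : 0 < dist x y := dist_pos.mpr h
      have hlt : Metric.hausdorffDist (T x) (T y) < (1 - c / 2) * dist x y := by
        have := hloc x y hxy
        nlinarith
      obtain ⟨z, hz, hyz⟩ := Metric.exists_dist_lt_of_hausdorffDist_lt hy hlt (hedist x y)
      exact ⟨z, hz, hyz.le⟩
  -- the sequence of pairs
  let S := {p : X × X // p.2 ∈ T p.1 ∧ dist p.1 p.2 ≤ R}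
  have hq0 : 0 ≤ 1 - c / 2 := by linarith
  have hq1 : 1 - c / 2 < 1 := by linarith
  have hnext : ∀ p : S, ∃ z, z ∈ T p.1.2 ∧ dist p.1.2 z ≤ (1 - c / 2) * dist p.1.1 p.1.2 :=
    fun p => hstep _ _ p.2.1 p.2.2
  choose f hf1 hf2 using hnext
  let nxt : S → S := fun p => ⟨(p.1.2, f p), hf1 p, by
    have := hf2 p
    have h1 := p.2.2
    have h2 : 0 ≤ dist p.1.1 p.1.2 := dist_nonneg
    simp only
    nlinarith⟩
  let s : ℕ → S := fun n => nxt^[n] ⟨(x₀, x₁), hx₁, le_refl _⟩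
  have hs_succ : ∀ n, s (n + 1) = nxt (s n) := fun n => Function.iterate_succ_apply' _ _ _
  let u : ℕ → X := fun n => (s n).1.1
  have hu1 : ∀ n, u (n + 1) = (s n).1.2 := by
    intro n; simp only [u, hs_succ]; rfl
  have hmem : ∀ n, u (n + 1) ∈ T (u n) := by
    intro n; rw [hu1]; exact (s n).2.1
  have hdist : ∀ n, dist (u n) (u (n + 1)) ≤ R * (1 - c / 2) ^ n := by
    intro n
    induction n with
    | zero => rw [hu1]; simp [u, s, hR]
    | succ n ih =>
        have h1 : dist (u (n + 1)) (u (n + 2)) ≤ (1 - c / 2) * dist (u n) (u (n + 1)) := by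
          have h2 := hf2 (s n)
          have h3 : u (n + 2) = f (s n) := by
            rw [hu1, hs_succ]
          rw [h3, hu1]
          exact h2
        calc dist (u (n + 1)) (u (n + 2)) ≤ (1 - c / 2) * dist (u n) (u (n + 1)) := h1
          _ ≤ (1 - c / 2) * (R * (1 - c / 2) ^ n) := by gcongr
          _ = R * (1 - c / 2) ^ (n + 1) := by ring
  have hcau : CauchySeq u := cauchySeq_of_le_geometric _ R hq1 hdist
  obtain ⟨z, hz⟩ := cauchySeq_tendsto_of_complete hcau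
  refine ⟨z, ?_⟩
  rw [← (hT z).2.1.closure_eq, Metric.mem_closure_iff_infDist_zero (hT z).1]
  have hbound : ∀ n, Metric.infDist z (T z) ≤ dist z (u (n + 1)) + dist (u n) z := by
    intro n
    have h1 : Metric.infDist (u (n + 1)) (T z) ≤ Metric.hausdorffDist (T (u n)) (T z) :=
      Metric.infDist_le_hausdorffDist_of_mem (hmem n) (hedist _ _)
    have h2 : Metric.hausdorffDist (T (u n)) (T z) ≤ dist (u n) z := by
      have := hcon (u n) z
      have h3 : (0 : ℝ) ≤ θ (nndist (u n) z) := (θ _).2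
      linarith
    have h4 : Metric.infDist z (T z) ≤ Metric.infDist (u (n + 1)) (T z) + dist z (u (n + 1)) :=
      Metric.infDist_le_infDist_add_dist
    linarith
  have hlim : Tendsto (fun n => dist z (u (n + 1)) + dist (u n) z) atTop (𝓝 0) := by
    have h1 : Tendsto (fun n => dist z (u (n + 1))) atTop (𝓝 0) := by
      have h3 := (tendsto_iff_dist_tendsto_zero.mp ((tendsto_add_atTop_iff_nat 1).mpr hz))
      exact h3.congr fun n => dist_comm _ _
    have h2 : Tendsto (fun n => dist (u n) z) atTop (𝓝 0) := tendsto_iff_dist_tendsto_zero.mp hz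
    simpa using h1.add h2
  have h0 : Metric.infDist z (T z) ≤ 0 := ge_of_tendsto' hlim hbound
  exact le_antisymm h0 Metric.infDist_nonneg

end Pool.Agent.Results.MP_e93574_an.FixedPoint
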